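import Pool.Agent.H607R3.PS.Grade
import Pool.Agent.H594.PSRegP
import Pool.Agent.H841.PSRes
import Pool.Agent.H633R3.PS.Loc
import Pool.Agent.H291R3.PSB.Base
import Pool.Agent.H51R3.PS.Common

set_option autoImplicit false

/-!
# A counterexample to the grade conjecture

The ring `RP = RR[[t]] / (s t)` of the starting modules is local of dimension at least four, the
ideal `cP` has grade two, and `RP / cP` has dimension one and a finite free resolution.
-/

namespace Pool.Agent.Y217.GC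

open Pool.Agent.H607R3.PS IsLocalRing

section

variable {T : Type} [CommRing T] {α β γ : T}

/-- the projection to `T` -/
noncomputable def pr : RP T α β γ →+* T :=
  Ideal.Quotient.lift _ ((fstR (T := T) (α := α) (β := β) (γ := γ)).comp
    (PowerSeries.constantCoeff (R := RR T α β γ))) (by
    intro f hf
    rw [Ideal.mem_span_singleton] at hf
    obtain ⟨c, rfl⟩ := hf
    simp)

theorem pr_toRP (u : RR T α β γ) : pr (toRP u) = u.a := by
  change pr (Ideal.Quotient.mk _ (PowerSeries.C u)) = _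
  unfold pr
  rw [Ideal.Quotient.lift_mk]
  simp [fstR]

/-- the class of the variable -/
noncomputable def tt : RP T α β γ := Ideal.Quotient.mk _ PowerSeries.X

theorem s_mul_tt : toRP (RR.s : RR T α β γ) * tt = 0 := by
  change (Ideal.Quotient.mk _ (PowerSeries.C (RR.s : RR T α β γ)) : RP T α β γ) *
    Ideal.Quotient.mk _ PowerSeries.X = 0
  rw [← map_mul, Ideal.Quotient.eq_zero_iff_mem]
  exact Ideal.mem_span_singleton_self _

theorem decomp (f : RP T α β γ) : ∃ (g : RP T α β γ) (a b c : T),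
    f = tt * g + (toRP (RR.emb a) + toRP (RR.emb b) * toRP RR.x + toRP (RR.emb c) * toRP RR.w) := by
  obtain ⟨F, rfl⟩ := Ideal.Quotient.mk_surjective f
  obtain ⟨G, hG⟩ := Pool.Agent.H291R3.PSB.decomp1 F
  refine ⟨Ideal.Quotient.mk _ G, (PowerSeries.constantCoeff F).a, (PowerSeries.constantCoeff F).b,
    (PowerSeries.constantCoeff F).c, ?_⟩
  rw [← map_mul, ← map_mul, ← map_add, ← map_add, ← RR.decomp]
  change _ = Ideal.Quotient.mk _ PowerSeries.X * Ideal.Quotient.mk _ G +
    Ideal.Quotient.mk _ (PowerSeries.C (PowerSeries.constantCoeff F))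
  rw [← map_mul, ← map_add]
  congr 1
  rw [add_comm]
  exact hG

theorem pr_tt : pr (tt : RP T α β γ) = 0 := by
  unfold tt pr
  rw [Ideal.Quotient.lift_mk]
  simp [fstR]

theorem pr_decomp (g : RP T α β γ) (a b c : T) :
    pr (tt * g + (toRP (RR.emb a) + toRP (RR.emb b) * toRP RR.x +
      toRP (RR.emb c) * toRP RR.w)) = a := by
  rw [map_add, map_mul, pr_tt, zero_mul, zero_add, map_add, map_add, map_mul, map_mul,
    pr_toRP, pr_toRP, pr_toRP, pr_toRP, pr_toRP]
  simp [RR.x, RR.w]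

/-- A prime ideal which does not contain `s` contains `t`, `x` and `w`. -/
theorem mem_of_notMem_s {q : Ideal (RP T α β γ)} (hq : q.IsPrime)
    (hs : toRP (RR.s : RR T α β γ) ∉ q) :
    tt ∈ q ∧ toRP (RR.x : RR T α β γ) ∈ q ∧ toRP (RR.w : RR T α β γ) ∈ q := by
  refine ⟨?_, ?_, ?_⟩
  · refine (hq.mem_or_mem (?_ : toRP (RR.s : RR T α β γ) * tt ∈ q)).resolve_left hs
    rw [s_mul_tt]
    exact zero_mem _
  · refine (hq.mem_or_mem (?_ : toRP (RR.x : RR T α β γ) * toRP RR.s ∈ q)).resolve_right hs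
    rw [← map_mul, RR.xs, map_zero]
    exact zero_mem _
  · refine (hq.mem_or_mem (?_ : toRP (RR.w : RR T α β γ) * toRP RR.s ∈ q)).resolve_right hs
    rw [← map_mul, RR.ws, map_zero]
    exact zero_mem _

/-- the prime ideal of the `s`-axis -/
noncomputable def pp (T : Type) [CommRing T] (α β γ : T) : Ideal (RP T α β γ) :=
  (Ideal.span {α, β} : Ideal T).comap pr

theorem mem_pp {f : RP T α β γ} : f ∈ pp T α β γ ↔ pr f ∈ (Ideal.span {α, β} : Ideal T) := Iff.rfl

theorem pp_le {q : Ideal (RP T α β γ)} (hq : q.IsPrime)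
    (hα : toRP (RR.emb α : RR T α β γ) ∈ q) (hβ : toRP (RR.emb β : RR T α β γ) ∈ q)
    (hs : toRP (RR.s : RR T α β γ) ∉ q) : pp T α β γ ≤ q := by
  obtain ⟨ht, hx, hw⟩ := mem_of_notMem_s hq hs
  intro f hf
  obtain ⟨g, a, b, c, rfl⟩ := decomp f
  have h1 : a ∈ (Ideal.span {α, β} : Ideal T) := by
    have h2 : pr (tt * g + (toRP (RR.emb a) + toRP (RR.emb b) * toRP RR.x +
        toRP (RR.emb c) * toRP RR.w)) ∈ (Ideal.span {α, β} : Ideal T) := hf
    rw [pr_decomp] at h2
    exact h2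
  have h4 : toRP (RR.emb a : RR T α β γ) ∈ q := by
    have h5 : (Ideal.span {α, β} : Ideal T) ≤
        q.comap ((toRP : RR T α β γ →+* RP T α β γ).comp RR.emb) := by
      rw [Ideal.span_le]
      rintro t (rfl | rfl)
      · exact hα
      · exact hβ
    exact h5 h1
  exact Ideal.add_mem _ (Ideal.mul_mem_right _ _ ht) (Ideal.add_mem _ (Ideal.add_mem _ h4
    (Ideal.mul_mem_left _ _ hx)) (Ideal.mul_mem_left _ _ hw))

theorem s_notMem_pp (h : γ ∉ (Ideal.span {α, β} : Ideal T)) :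
    toRP (RR.s : RR T α β γ) ∉ pp T α β γ := by
  intro hs
  apply h
  have h1 : pr (toRP (RR.s : RR T α β γ)) ∈ (Ideal.span {α, β} : Ideal T) := hs
  rw [pr_toRP] at h1
  exact h1

theorem cP_le_pp : cP T α β γ ≤ pp T α β γ := by
  unfold cP cI
  rw [Ideal.span_le]
  rintro _ ⟨i, rfl⟩
  have h1 := H51R3.PS.rho_gens (α := α) (β := β) (γ := γ) i
  have h2 : gens (toRP (RR.x : RR T α β γ)) (toRP RR.y) (toRP RR.z) (toRP RR.w) (toRP RR.s) i =
      toRP (gens (RR.x : RR T α β γ) RR.y RR.z RR.w RR.s i) := by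
    fin_cases i <;> simp [gens]
  rw [h2, SetLike.mem_coe, mem_pp, pr_toRP]
  exact h1

theorem height_pp [IsNoetherianRing T] (hp : (Ideal.span {α, β} : Ideal T).IsPrime)
    (h : γ ∉ (Ideal.span {α, β} : Ideal T)) : (pp T α β γ).height ≤ 2 := by
  classical
  have hpp : (pp T α β γ).IsPrime := Ideal.comap_isPrime _ _
  have hmin : pp T α β γ ∈ (Ideal.span (({toRP (RR.emb α : RR T α β γ),
      toRP (RR.emb β : RR T α β γ)} : Finset (RP T α β γ)) : Set (RP T α β γ))).minimalPrimes := by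
    refine ⟨⟨hpp, ?_⟩, ?_⟩
    · rw [Ideal.span_le]
      intro u hu
      rw [Finset.mem_coe, Finset.mem_insert, Finset.mem_singleton] at hu
      rcases hu with rfl | rfl
      · rw [SetLike.mem_coe, mem_pp, pr_toRP]
        exact Ideal.subset_span (by simp)
      · rw [SetLike.mem_coe, mem_pp, pr_toRP]
        exact Ideal.subset_span (by simp)
    · rintro q ⟨hq, hq2⟩ hq3
      rw [Ideal.span_le] at hq2
      exact pp_le hq (hq2 (by simp)) (hq2 (by simp)) (fun hs => s_notMem_pp h (hq3 hs))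
  refine (Ideal.height_le_card_of_mem_minimalPrimes_span_finset hmin).trans ?_
  exact_mod_cast Finset.card_le_two

end

theorem length_le {L : Type} [CommRing L] [IsLocalRing L] [IsNoetherianRing L] (rs : List L)
    (h : RingTheory.Sequence.IsRegular L rs) : ((rs.length : ℕ) : WithBot ℕ∞) ≤ ringKrullDim L := by
  have h1 := ringKrullDim_add_length_eq_ringKrullDim_of_isRegular rs h
  have : Nontrivial (L ⧸ Ideal.ofList rs) := by
    rw [Ideal.Quotient.nontrivial_iff]
    have h5 := h.2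
    intro h6
    apply h5
    rw [h6]
    simp
  have h4 : (0 : WithBot ℕ∞) ≤ ringKrullDim (L ⧸ Ideal.ofList rs) :=
    ringKrullDim_nonneg_of_nontrivial
  rw [← h1]
  calc ((rs.length : ℕ) : WithBot ℕ∞) = 0 + ((rs.length : ℕ) : WithBot ℕ∞) := by simp
    _ ≤ _ := by gcongr

/-- A prime ideal of height at most two contains no weakly regular sequence of length three. -/
theorem length_le_height {R : Type} [CommRing R] [IsNoetherianRing R] (p : Ideal R) [p.IsPrime]
    (rs : List R) (h : RingTheory.Sequence.IsWeaklyRegular R rs) (hm : ∀ r ∈ rs, r ∈ p) :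
    ((rs.length : ℕ) : WithBot ℕ∞) ≤ p.height := by
  have hR := h.isRegular_of_isLocalization_of_mem (Localization.AtPrime p) p hm
  have h1 := length_le _ hR
  rw [List.length_map, IsLocalization.AtPrime.ringKrullDim_eq_height p
    (Localization.AtPrime p)] at h1
  exact h1

theorem taskGradeP : TaskGradeP := by
  intro T _ _ _ _ α β γ hB
  rintro ⟨rs, hlen, hmem, hreg⟩
  have := hB.prime2
  have hpp : (pp T α β γ).IsPrime := Ideal.comap_isPrime _ _
  have h1 := length_le_height (pp T α β γ) rs hreg (fun r hr => cP_le_pp (hmem r hr))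
  have h2 := height_pp (α := α) (β := β) (γ := γ) hB.prime2 hB.notMem
  rw [hlen] at h1
  have h3 : (((3 : ℕ) : ℕ∞) : WithBot ℕ∞) ≤ ((2 : ℕ∞) : WithBot ℕ∞) :=
    h1.trans (WithBot.coe_le_coe.2 h2)
  exact absurd (by exact_mod_cast WithBot.coe_le_coe.1 h3 : (3 : ℕ) ≤ 2) (by decide)

theorem dim_RP {T : Type} [CommRing T] [IsLocalRing T] [IsNoetherianRing T] [IsDomain T]
    {α β γ : T} (hB : Base T α β γ) : (4 : WithBot ℕ∞) ≤ ringKrullDim (RP T α β γ) := by
  have h1 := H51R3.PS.dimA hB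
  have h2 := ringKrullDim_succ_le_ringKrullDim_powerseries
    (R := RR T α β γ ⧸ (Ideal.span {RR.s} : Ideal (RR T α β γ)))
  let F : RP T α β γ →+* PowerSeries (RR T α β γ ⧸ (Ideal.span {RR.s} : Ideal (RR T α β γ))) :=
    Ideal.Quotient.lift _ (PowerSeries.map (Ideal.Quotient.mk _)) (by
      intro f hf
      rw [Ideal.mem_span_singleton] at hf
      obtain ⟨c, rfl⟩ := hf
      have h3 : (Ideal.Quotient.mk (Ideal.span {RR.s} : Ideal (RR T α β γ))) RR.s = 0 :=
        Ideal.Quotient.eq_zero_iff_mem.2 (Ideal.mem_span_singleton_self _)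
      rw [map_mul, map_mul, PowerSeries.map_C, h3, map_zero, zero_mul, zero_mul])
  have hF : Function.Surjective F := by
    intro g
    obtain ⟨f, hf⟩ := PowerSeries.map_surjective _ (Ideal.Quotient.mk_surjective
      (I := (Ideal.span {RR.s} : Ideal (RR T α β γ)))) g
    exact ⟨Ideal.Quotient.mk _ f, hf⟩
  have h3 := ringKrullDim_le_of_surjective F hF
  calc (4 : WithBot ℕ∞) = 3 + 1 := by norm_num
    _ ≤ ringKrullDim (RR T α β γ ⧸ (Ideal.span {RR.s} : Ideal (RR T α β γ))) + 1 := by gcongr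
    _ ≤ _ := h2
    _ ≤ _ := h3

/-- the residue map -/
noncomputable def res (T : Type) [CommRing T] [IsLocalRing T] (α β γ : T) :
    RP T α β γ →+* ResidueField T := (residue T).comp pr

/-- A prime ideal of `RP` which contains `cP` and `s + t` is maximal. -/
theorem eq_of_prime {T : Type} [CommRing T] [IsLocalRing T] [IsNoetherianRing T] [IsDomain T]
    {α β γ : T} (hB : Base T α β γ) {q : Ideal (RP T α β γ)} (hq : q.IsPrime)
    (hc : cP T α β γ ≤ q) (hst : toRP (RR.s : RR T α β γ) + tt ∈ q) :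
    RingHom.ker (res T α β γ) ≤ q := by
  have hg : ∀ i, gens (toRP (RR.x : RR T α β γ)) (toRP RR.y) (toRP RR.z) (toRP RR.w)
      (toRP RR.s) i ∈ q := fun i => hc (Ideal.subset_span ⟨i, rfl⟩)
  have hy : toRP (RR.y : RR T α β γ) ∈ q := hq.mem_of_pow_mem 3 (hg 0)
  have hz : toRP (RR.z : RR T α β γ) ∈ q := hq.mem_of_pow_mem 2 (hg 1)
  have hx : toRP (RR.x : RR T α β γ) ∈ q := by
    refine hq.mem_of_pow_mem 2 ?_
    have h1 : toRP (RR.x : RR T α β γ) ^ 2 + toRP (RR.s : RR T α β γ) ^ 2 *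
      toRP (RR.z : RR T α β γ) ∈ q := hg 3
    exact (Ideal.add_mem_iff_left _ (Ideal.mul_mem_left _ _ hz)).1 h1
  have hw : toRP (RR.w : RR T α β γ) ∈ q := by
    refine hq.mem_of_pow_mem 4 ?_
    have h1 : toRP (RR.w : RR T α β γ) ^ 4 + toRP (RR.s : RR T α β γ) *
      toRP (RR.y : RR T α β γ) * toRP (RR.z : RR T α β γ) ∈ q := hg 4
    exact (Ideal.add_mem_iff_left _ (Ideal.mul_mem_left _ _ hz)).1 h1
  have hs : toRP (RR.s : RR T α β γ) ∈ q ∧ tt ∈ q := by
    have h1 : toRP (RR.s : RR T α β γ) * tt ∈ q := by rw [s_mul_tt]; exact zero_mem _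
    rcases hq.mem_or_mem h1 with h2 | h2
    · exact ⟨h2, (Ideal.add_mem_iff_right _ h2).1 hst⟩
    · exact ⟨(Ideal.add_mem_iff_left _ h2).1 hst, h2⟩
  have hα : toRP (RR.emb α : RR T α β γ) ∈ q := by
    rw [← RR.x_sub_y, map_sub]
    exact Ideal.sub_mem _ hx hy
  have hβ : toRP (RR.emb β : RR T α β γ) ∈ q := by
    rw [← RR.z_eq]
    exact hz
  have hγ : toRP (RR.emb γ : RR T α β γ) ∈ q := by
    rw [← RR.s_add_w, map_add]
    exact Ideal.add_mem _ hs.1 hw
  intro f hf
  obtain ⟨g, a, b, c, rfl⟩ := decomp f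
  have h1 : a ∈ maximalIdeal T := by
    rw [RingHom.mem_ker] at hf
    have h2 : residue T (pr (tt * g + (toRP (RR.emb a) + toRP (RR.emb b) * toRP RR.x +
      toRP (RR.emb c) * toRP RR.w))) = 0 := hf
    rw [pr_decomp, residue_eq_zero_iff] at h2
    exact h2
  have h4 : toRP (RR.emb a : RR T α β γ) ∈ q := by
    have h5 : maximalIdeal T ≤
        q.comap ((toRP : RR T α β γ →+* RP T α β γ).comp RR.emb) := by
      rw [hB.max, Ideal.span_le]
      rintro t (rfl | rfl | rfl)
      · exact hα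
      · exact hβ
      · exact hγ
    exact h5 h1
  exact Ideal.add_mem _ (Ideal.mul_mem_right _ _ hs.2) (Ideal.add_mem _ (Ideal.add_mem _ h4
    (Ideal.mul_mem_left _ _ hx)) (Ideal.mul_mem_left _ _ hw))

theorem dim_le_one {B : Type} [CommRing B] [IsNoetherianRing B] (r : B)
    (h1 : ∀ m : Ideal B, m.IsMaximal → r ∈ m)
    (h2 : ∀ q : Ideal B, q.IsPrime → r ∈ q → q.IsMaximal) : ringKrullDim B ≤ 1 := by
  rw [ringKrullDim_le_iff_isMaximal_height_le]
  intro m hm
  have hm' := hm.isPrime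
  have hmin : m ∈ (Ideal.span {r} : Ideal B).minimalPrimes := by
    refine ⟨⟨hm', ?_⟩, ?_⟩
    · rw [Ideal.span_singleton_le_iff_mem]
      exact h1 m hm
    · rintro q ⟨hq, hq2⟩ hq3
      rw [Ideal.span_singleton_le_iff_mem] at hq2
      exact ((h2 q hq hq2).eq_of_le hm.ne_top hq3).ge
  have h3 : m.height ≤ 1 :=
    Ideal.height_le_one_of_isPrincipal_of_mem_minimalPrimes (Ideal.span {r}) m hmin
  exact_mod_cast h3

theorem ker_isMaximal (T : Type) [CommRing T] [IsLocalRing T] (α β γ : T) :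
    (RingHom.ker (res T α β γ)).IsMaximal := by
  refine RingHom.ker_isMaximal_of_surjective _ ?_
  intro k
  obtain ⟨t, rfl⟩ := residue_surjective k
  refine ⟨toRP (RR.emb t), ?_⟩
  change residue T (pr _) = _
  rw [pr_toRP]
  rfl

theorem isLocal {T : Type} [CommRing T] [IsLocalRing T] [IsNoetherianRing T] [IsDomain T]
    {α β γ : T} (hB : Base T α β γ) : IsLocalRing (RP T α β γ) := by
  obtain ⟨hα, hβ, hγ⟩ := H51R3.PS.mem_max hB
  have := taskLoc T α β γ hα hβ hγ
  exact local_RP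

theorem dim_quot {T : Type} [CommRing T] [IsLocalRing T] [IsNoetherianRing T] [IsDomain T]
    {α β γ : T} (hB : Base T α β γ) : ringKrullDim (RP T α β γ ⧸ cP T α β γ) ≤ 1 := by
  have hmax := ker_isMaximal T α β γ
  have hloc := isLocal hB
  have hN : IsNoetherianRing (RP T α β γ) := noeth_RP
  have hst : toRP (RR.s : RR T α β γ) + tt ∈ RingHom.ker (res T α β γ) := by
    rw [RingHom.mem_ker]
    change residue T (pr _) = 0
    rw [map_add, pr_tt, add_zero, pr_toRP, residue_eq_zero_iff]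
    exact (H51R3.PS.mem_max hB).2.2
  refine dim_le_one (Ideal.Quotient.mk (cP T α β γ) (toRP (RR.s : RR T α β γ) + tt)) ?_ ?_
  · intro m hm
    have h1 : (m.comap (Ideal.Quotient.mk (cP T α β γ))).IsMaximal :=
      Ideal.comap_isMaximal_of_surjective _ Ideal.Quotient.mk_surjective
    have h2 := (IsLocalRing.eq_maximalIdeal h1).trans (IsLocalRing.eq_maximalIdeal hmax).symm
    have h3 : toRP (RR.s : RR T α β γ) + tt ∈ m.comap (Ideal.Quotient.mk (cP T α β γ)) := by
      rw [h2]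
      exact hst
    exact h3
  · intro q hq hr
    have hp : (q.comap (Ideal.Quotient.mk (cP T α β γ))).IsPrime := Ideal.comap_isPrime _ _
    have h1 : cP T α β γ ≤ q.comap (Ideal.Quotient.mk (cP T α β γ)) := by
      intro k hk
      have h0 : Ideal.Quotient.mk (cP T α β γ) k = 0 := Ideal.Quotient.eq_zero_iff_mem.2 hk
      rw [Ideal.mem_comap, h0]
      exact zero_mem _
    have h2 := eq_of_prime hB hp h1 hr
    have h3 : q.comap (Ideal.Quotient.mk (cP T α β γ)) = RingHom.ker (res T α β γ) :=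
      (hmax.eq_of_le hp.ne_top h2).symm
    have h4 : (q.comap (Ideal.Quotient.mk (cP T α β γ))).IsMaximal := by
      rw [h3]
      exact hmax
    have h5 := Ideal.map_comap_of_surjective (Ideal.Quotient.mk (cP T α β γ))
      Ideal.Quotient.mk_surjective q
    rcases Ideal.map_eq_top_or_isMaximal_of_surjective (Ideal.Quotient.mk (cP T α β γ))
      Ideal.Quotient.mk_surjective h4 with h6 | h6
    · rw [h5] at h6
      exact absurd h6 hq.ne_top
    · rw [h5] at h6
      exact h6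

/-- The grade conjecture fails. -/
theorem main : ∃ (A : Type) (_ : CommRing A) (_ : IsLocalRing A) (_ : IsNoetherianRing A)
    (I : Ideal A), I ≠ ⊤ ∧ FinRes A (A ⧸ I) ∧
      (∃ rs : List A, rs.length = 2 ∧ (∀ r ∈ rs, r ∈ I) ∧
        RingTheory.Sequence.IsWeaklyRegular A rs) ∧
      (¬ ∃ rs : List A, rs.length = 3 ∧ (∀ r ∈ rs, r ∈ I) ∧
        RingTheory.Sequence.IsWeaklyRegular A rs) ∧
      ringKrullDim (A ⧸ I) ≤ 1 ∧ 4 ≤ ringKrullDim A := by
  obtain ⟨T, iT, iL, iN, iD, α, β, γ, hB⟩ := Pool.Agent.H291R3.PSB.taskBase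
  obtain ⟨hα, hβ, hγ⟩ := H51R3.PS.mem_max hB
  refine ⟨RP T α β γ, inferInstance, isLocal hB, noeth_RP, cP T α β γ, cP_ne_top hα hβ hγ,
    finRes_RP taskRes taskRegP hγ hB.reg, ?_, taskGradeP T α β γ hB, dim_quot hB, dim_RP hB⟩
  refine ⟨[toRP (RR.emb α : RR T α β γ) ^ 4, toRP (RR.emb β : RR T α β γ) ^ 2], rfl, ?_,
    weaklyRegular_pair (taskRegP T α β γ hB.reg)⟩
  intro r hr
  simp only [List.mem_cons, List.not_mem_nil, or_false] at hr
  rcases hr with rfl | rfl
  · exact mem_F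
  · exact mem_G

end Pool.Agent.Y217.GC
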